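import Pool.Agent.Helper92.TN.GoalsH

/-!
Goal ACLA of project TN: the closure operator.
-/

namespace Pool.Agent.Helper87.TN.ACLA

open IntermediateField Pool.Agent.Helper92.TN

open scoped IntermediateField.algebraAdjoinAdjoin

theorem mem_acl (K Ω : Type) [Field K] [Field Ω] [Algebra K Ω] (S : Set Ω) (z : Ω) :
    z ∈ acl K S ↔ IsAlgebraic (IntermediateField.adjoin K S) z := by
  unfold acl
  rw [IntermediateField.mem_restrictScalars, mem_algebraicClosure_iff]

theorem coe_acl (K Ω : Type) [Field K] [Field Ω] [Algebra K Ω] (S : Set Ω) :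
    (acl K S : Set Ω) = (AlgebraicIndependent.matroid K Ω).closure S := by
  ext z
  rw [AlgebraicIndependent.matroid_closure_eq, SetLike.mem_coe, mem_acl, SetLike.mem_coe,
    Subalgebra.mem_algebraicClosure]
  exact (IsFractionRing.isAlgebraic_iff (Algebra.adjoin K S) (IntermediateField.adjoin K S) Ω).symm

theorem closed (K Ω : Type) [Field K] [Field Ω] [Algebra K Ω] [IsAlgClosed Ω] (S : Set Ω) :
    IsAlgClosed (acl K S) := by
  have h : IsAlgClosure (IntermediateField.adjoin K S)
      (algebraicClosure (IntermediateField.adjoin K S) Ω) := inferInstance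
  exact h.1

theorem t : Pool.Agent.Helper92.TN.ACLA := by
  intro K Ω _ _ _ S T
  refine ⟨mem_acl K Ω S, ?_, ?_, ?_, ?_, ?_, ?_⟩
  · rw [coe_acl]
    exact Matroid.subset_closure _ _ (by simp)
  · intro h
    rw [← SetLike.coe_subset_coe, coe_acl, coe_acl]
    exact Matroid.closure_subset_closure _ h
  · apply SetLike.coe_injective
    rw [coe_acl, coe_acl, coe_acl]
    exact Matroid.closure_union_closure_left_eq _ _ _
  · intro z v h1 h3
    rw [← SetLike.mem_coe, coe_acl] at h1 h3 ⊢
    exact (Matroid.closure_exchange ⟨h1, h3⟩).1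
  · intro h
    exact closed K Ω S
  · intro h z
    by_cases hz : IsAlgebraic (acl K S) z
    · left
      have hc := closed K Ω S
      have h3 : IsIntegral (acl K S) z := hz.isIntegral
      have h4 : z ∈ algebraicClosure (acl K S) Ω := mem_algebraicClosure_iff.2 hz
      rw [(IsAlgClosed.algebraicClosure_eq_bot_iff (acl K S) Ω).2 hc, IntermediateField.mem_bot]
        at h4
      obtain ⟨y, rfl⟩ := h4
      exact y.2
    · right
      exact hz

end Pool.Agent.Helper87.TN.ACLA
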